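import Mathlib

/-!
# KU: Blaschke products near the circle
-/

set_option autoImplicit false

namespace Pool.Agent.Helper23.KU

open Filter Topology Metric Set

/-- on the circle numerator and denominator of a Blaschke product have the same modulus -/
theorem prod_on_circle {s : Multiset ℂ} (hs : ∀ a ∈ s, ‖a‖ < 1) {z : ℂ} (hz : ‖z‖ = 1) :
    (s.map fun a => z - a).prod ≠ 0 ∧ (s.map fun a => 1 - (starRingEnd ℂ) a * z).prod ≠ 0 ∧
      ‖(s.map fun a => z - a).prod‖ = ‖(s.map fun a => 1 - (starRingEnd ℂ) a * z).prod‖ := by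
  induction s using Multiset.induction_on with
  | empty => simp
  | cons a s ih =>
    obtain ⟨h1, h2, h3⟩ := ih fun b hb => hs b (Multiset.mem_cons_of_mem hb)
    have ha : ‖a‖ < 1 := hs a (Multiset.mem_cons_self a s)
    have h4 : z - a ≠ 0 := by
      intro h
      rw [sub_eq_zero.1 h] at hz
      exact absurd hz ha.ne
    have h5 : ‖z - a‖ = ‖1 - (starRingEnd ℂ) a * z‖ := by
      have h6 : (starRingEnd ℂ) z * (1 - (starRingEnd ℂ) a * z) = (starRingEnd ℂ) (z - a) := by
        have h7 : (starRingEnd ℂ) z * z = 1 := by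
          rw [mul_comm, Complex.mul_conj, Complex.normSq_eq_norm_sq, hz]
          norm_num
        rw [map_sub]
        linear_combination -((starRingEnd ℂ) a) * h7
      have h8 := congrArg norm h6
      rw [norm_mul, Complex.norm_conj, Complex.norm_conj, hz, one_mul] at h8
      exact h8.symm
    have h9 : 1 - (starRingEnd ℂ) a * z ≠ 0 := by
      rw [← norm_ne_zero_iff, ← h5]
      exact norm_ne_zero_iff.2 h4
    simp only [Multiset.map_cons, Multiset.prod_cons]
    exact ⟨mul_ne_zero h4 h1, mul_ne_zero h9 h2, by rw [norm_mul, norm_mul, h3, h5]⟩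

theorem continuous_multiset_prod {f : ℂ → ℂ → ℂ} (hf : ∀ a, Continuous (f a)) (s : Multiset ℂ) :
    Continuous fun z => (s.map fun a => f a z).prod := by
  induction s using Multiset.induction_on with
  | empty => simpa using continuous_const
  | cons a s ih =>
    simp only [Multiset.map_cons, Multiset.prod_cons]
    exact (hf a).mul ih

/-- an open set which contains the circle contains an annulus -/
theorem annulus_of_open {U : Set ℂ} (hU : IsOpen U) (h : ∀ z : ℂ, ‖z‖ = 1 → z ∈ U) :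
    ∃ r < (1 : ℝ), ∀ z : ℂ, r ≤ ‖z‖ → ‖z‖ ≤ 1 → z ∈ U := by
  by_cases hK : (closedBall (0 : ℂ) 1 \ U).Nonempty
  · have hc : IsCompact (closedBall (0 : ℂ) 1 \ U) := (isCompact_closedBall 0 1).diff hU
    obtain ⟨w, hw, hw2⟩ := hc.exists_isMaxOn hK (continuous_norm.continuousOn)
    have h1 : ‖w‖ < 1 := by
      refine lt_of_le_of_ne (by simpa using hw.1) fun h2 => hw.2 (h w h2)
    refine ⟨(‖w‖ + 1) / 2, by linarith, fun z hz hz1 => ?_⟩
    by_contra h2
    have h3 : ‖z‖ ≤ ‖w‖ := hw2 (show z ∈ closedBall (0 : ℂ) 1 \ U from ⟨by simpa using hz1, h2⟩)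
    linarith
  · refine ⟨0, by norm_num, fun z _ hz1 => ?_⟩
    by_contra h2
    exact hK ⟨z, by simpa using hz1, h2⟩

/-- near the circle a Blaschke product is close to unimodular -/
theorem prod_near {s : Multiset ℂ} (hs : ∀ a ∈ s, ‖a‖ < 1) {δ : ℝ} (hδ : 0 < δ) :
    ∃ r < 1, ∀ z : ℂ, r ≤ ‖z‖ → ‖z‖ ≤ 1 →
      (s.map fun a => z - a).prod ≠ 0 ∧ (s.map fun a => 1 - (starRingEnd ℂ) a * z).prod ≠ 0 ∧
      ‖(s.map fun a => z - a).prod‖ ≤
        (1 + δ) * ‖(s.map fun a => 1 - (starRingEnd ℂ) a * z).prod‖ ∧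
      ‖(s.map fun a => 1 - (starRingEnd ℂ) a * z).prod‖ ≤
        (1 + δ) * ‖(s.map fun a => z - a).prod‖ := by
  have hP : Continuous fun z : ℂ => (s.map fun a => z - a).prod :=
    continuous_multiset_prod (f := fun a z => z - a) (fun a => by fun_prop) s
  have hQ : Continuous fun z : ℂ => (s.map fun a => 1 - (starRingEnd ℂ) a * z).prod :=
    continuous_multiset_prod (f := fun a z => 1 - (starRingEnd ℂ) a * z) (fun a => by fun_prop) s
  have hU : IsOpen {z : ℂ | ‖(s.map fun a => z - a).prod‖ <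
      (1 + δ) * ‖(s.map fun a => 1 - (starRingEnd ℂ) a * z).prod‖ ∧
      ‖(s.map fun a => 1 - (starRingEnd ℂ) a * z).prod‖ <
        (1 + δ) * ‖(s.map fun a => z - a).prod‖} :=
    (isOpen_lt hP.norm (continuous_const.mul hQ.norm)).inter
      (isOpen_lt hQ.norm (continuous_const.mul hP.norm))
  obtain ⟨r, hr, h⟩ := annulus_of_open hU (by
    intro z hz
    obtain ⟨h1, h2, h3⟩ := prod_on_circle hs hz
    have h4 : 0 < ‖(s.map fun a => z - a).prod‖ := norm_pos_iff.2 h1
    refine ⟨?_, ?_⟩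
    · rw [← h3]
      nlinarith
    · rw [← h3]
      nlinarith)
  refine ⟨r, hr, fun z hz hz1 => ?_⟩
  obtain ⟨h1, h2⟩ := h z hz hz1
  have h3 : 0 < ‖(s.map fun a => z - a).prod‖ := by
    by_contra h4
    have h5 : ‖(s.map fun a => z - a).prod‖ = 0 := le_antisymm (not_lt.1 h4) (norm_nonneg _)
    rw [h5, mul_zero] at h2
    exact absurd h2 (not_lt.2 (norm_nonneg _))
  have h4 : 0 < ‖(s.map fun a => 1 - (starRingEnd ℂ) a * z).prod‖ := by
    by_contra h4
    have h5 : ‖(s.map fun a => 1 - (starRingEnd ℂ) a * z).prod‖ = 0 :=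
      le_antisymm (not_lt.1 h4) (norm_nonneg _)
    rw [h5, mul_zero] at h1
    exact absurd h1 (not_lt.2 (norm_nonneg _))
  exact ⟨norm_pos_iff.1 h3, norm_pos_iff.1 h4, h1.le, h2.le⟩

end Pool.Agent.Helper23.KU
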