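import Mathlib

/-!
# KU: zeros on a compact disc split off
-/

set_option autoImplicit false

namespace Pool.Agent.Helper23.KU

open Filter Topology Metric Set

/-- the zeros of a nonzero analytic function in a compact disc are finitely many -/
theorem zeros_finite {u : ℂ → ℂ} (hu : DifferentiableOn ℂ u (ball 0 1))
    (hu0 : ∃ z ∈ ball (0 : ℂ) 1, u z ≠ 0) {r : ℝ} (hr : r < 1) :
    {z : ℂ | ‖z‖ ≤ r ∧ u z = 0}.Finite := by
  by_contra h
  have h1 : {z : ℂ | ‖z‖ ≤ r ∧ u z = 0}.Infinite := h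
  have h2 : {z : ℂ | ‖z‖ ≤ r ∧ u z = 0} ⊆ closedBall (0 : ℂ) r := by
    intro z hz
    rw [mem_closedBall_zero_iff]
    exact hz.1
  obtain ⟨x, hx, hx2⟩ := h1.exists_accPt_of_subset_isCompact (isCompact_closedBall 0 r) h2
  have hx1 : x ∈ ball (0 : ℂ) 1 := by
    rw [mem_ball_zero_iff]
    rw [mem_closedBall_zero_iff] at hx
    linarith
  have h3 : ∃ᶠ z in 𝓝[≠] x, u z = 0 := by
    rw [accPt_iff_frequently_nhdsNE] at hx2
    exact hx2.mono fun z hz => hz.2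
  obtain ⟨z, hz, hz2⟩ := hu0
  have h4 := (hu.analyticOnNhd isOpen_ball).eqOn_zero_of_preconnected_of_frequently_eq_zero
    (convex_ball (0 : ℂ) 1).isPreconnected hx1 h3
  exact hz2 (h4 hz)

/-- one zero split off -/
theorem split_zero {S : Set ℂ} {u : ℂ → ℂ} (hu : DifferentiableOn ℂ u (ball 0 1))
    (hc : ContinuousOn u S) (hu0 : ∃ z ∈ ball (0 : ℂ) 1, u z ≠ 0) {a : ℂ}
    (ha : a ∈ ball (0 : ℂ) 1) :
    ∃ (n : ℕ) (w : ℂ → ℂ), DifferentiableOn ℂ w (ball 0 1) ∧ ContinuousOn w S ∧ w a ≠ 0 ∧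
      ∀ z : ℂ, z ∈ S ∪ ball (0 : ℂ) 1 → u z = (z - a) ^ n * w z := by
  have hA := (hu.analyticOnNhd isOpen_ball) a ha
  have h1 : ¬ ∀ᶠ z in 𝓝 a, u z = 0 := by
    intro h2
    obtain ⟨z, hz, hz2⟩ := hu0
    exact hz2 ((hu.analyticOnNhd isOpen_ball).eqOn_zero_of_preconnected_of_eventuallyEq_zero
      (convex_ball (0 : ℂ) 1).isPreconnected ha h2 hz)
  obtain ⟨n, g, hg, hga, hgu⟩ := hA.exists_eventuallyEq_pow_smul_nonzero_iff.2 h1
  classical
  set w : ℂ → ℂ := fun z => if z = a then g a else u z / (z - a) ^ n with hw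
  have hwa : w a = g a := by simp [hw]
  have hwz : ∀ z, z ≠ a → w z = u z / (z - a) ^ n := fun z hz => by simp [hw, hz]
  have hwg : w =ᶠ[𝓝 a] g := by
    filter_upwards [hgu] with z hz
    by_cases h : z = a
    · rw [h, hwa]
    · rw [hwz z h, hz, smul_eq_mul, mul_div_cancel_left₀]
      exact pow_ne_zero _ (sub_ne_zero.2 h)
  have hwA : AnalyticAt ℂ w a := hg.congr hwg.symm
  have hne : ∀ z : ℂ, z ≠ a → w =ᶠ[𝓝 z] fun x => u x / (x - a) ^ n := by
    intro z hz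
    filter_upwards [isOpen_ne.mem_nhds hz] with x hx
    exact hwz x hx
  refine ⟨n, w, ?_, ?_, by rw [hwa]; exact hga, ?_⟩
  · intro z hz
    by_cases h : z = a
    · rw [h]
      exact hwA.differentiableAt.differentiableWithinAt
    · have h2 : DifferentiableAt ℂ (fun x => u x / (x - a) ^ n) z :=
        (hu.differentiableAt (isOpen_ball.mem_nhds hz)).div
          ((differentiableAt_id.sub_const a).pow n) (pow_ne_zero _ (sub_ne_zero.2 h))
      exact (h2.congr_of_eventuallyEq (hne z h)).differentiableWithinAt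
  · intro z hz
    by_cases h : z = a
    · rw [h]
      exact hwA.continuousAt.continuousWithinAt
    · have h2 : ContinuousWithinAt (fun x => u x / (x - a) ^ n) S z :=
        (hc z hz).div (((continuous_id.sub continuous_const).pow n).continuousWithinAt)
          (pow_ne_zero _ (sub_ne_zero.2 h))
      exact h2.congr_of_eventuallyEq ((hne z h).filter_mono nhdsWithin_le_nhds) (hwz z h)
  · intro z _
    by_cases h : z = a
    · rw [h, hwa]
      have h2 := hgu.self_of_nhds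
      rw [h2, smul_eq_mul]
    · rw [hwz z h, mul_div_cancel₀]
      exact pow_ne_zero _ (sub_ne_zero.2 h)

/-- all zeros of a compact disc split off, with continuity on a larger set -/
theorem fin_zeros_on {S : Set ℂ} {u : ℂ → ℂ} (hu : DifferentiableOn ℂ u (ball 0 1))
    (hc : ContinuousOn u S) (hu0 : ∃ z ∈ ball (0 : ℂ) 1, u z ≠ 0) {r : ℝ} (hr : r < 1) :
    ∃ (s : Multiset ℂ) (v : ℂ → ℂ), (∀ a ∈ s, ‖a‖ ≤ r) ∧ DifferentiableOn ℂ v (ball 0 1) ∧
      ContinuousOn v S ∧ (∀ z : ℂ, ‖z‖ ≤ r → v z ≠ 0) ∧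
      ∀ z : ℂ, z ∈ S ∪ ball (0 : ℂ) 1 → u z = (s.map fun a => z - a).prod * v z := by
  classical
  suffices H : ∀ (Z : Finset ℂ) (u : ℂ → ℂ), DifferentiableOn ℂ u (ball 0 1) →
      ContinuousOn u S → (∃ z ∈ ball (0 : ℂ) 1, u z ≠ 0) →
      (∀ z : ℂ, ‖z‖ ≤ r → u z = 0 → z ∈ Z) →
      ∃ (s : Multiset ℂ) (v : ℂ → ℂ), (∀ a ∈ s, ‖a‖ ≤ r) ∧ DifferentiableOn ℂ v (ball 0 1) ∧
        ContinuousOn v S ∧ (∀ z : ℂ, ‖z‖ ≤ r → v z ≠ 0) ∧
        ∀ z : ℂ, z ∈ S ∪ ball (0 : ℂ) 1 → u z = (s.map fun a => z - a).prod * v z by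
    refine H (zeros_finite hu hu0 hr).toFinset u hu hc hu0 fun z hz hz2 => ?_
    rw [Set.Finite.mem_toFinset]
    exact ⟨hz, hz2⟩
  intro Z
  induction Z using Finset.induction_on with
  | empty =>
    intro u hu hc _ hz
    refine ⟨0, u, by simp, hu, hc, fun z hz1 hz2 => ?_, by simp⟩
    exact absurd (hz z hz1 hz2) (Finset.notMem_empty z)
  | insert a Z _ ih =>
    intro u hu hc hu0 hz
    by_cases h : ‖a‖ ≤ r
    · have ha : a ∈ ball (0 : ℂ) 1 := by
        rw [mem_ball_zero_iff]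
        linarith
      obtain ⟨n, w, hw, hwc, hwa, hwu⟩ := split_zero hu hc hu0 ha
      obtain ⟨s, v, h1, h2, h3, h4, h5⟩ := ih w hw hwc ⟨a, ha, hwa⟩ (by
        intro z hz1 hz2
        have hz3 : z ∈ ball (0 : ℂ) 1 := by
          rw [mem_ball_zero_iff]
          linarith
        have h6 : u z = 0 := by rw [hwu z (Or.inr hz3), hz2, mul_zero]
        rcases Finset.mem_insert.1 (hz z hz1 h6) with h7 | h7
        · exact absurd (h7 ▸ hz2) hwa
        · exact h7)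
      refine ⟨Multiset.replicate n a + s, v, ?_, h2, h3, h4, ?_⟩
      · intro b hb
        rcases Multiset.mem_add.1 hb with hb | hb
        · rw [Multiset.eq_of_mem_replicate hb]
          exact h
        · exact h1 b hb
      · intro z hz
        rw [hwu z hz, h5 z hz, Multiset.map_add, Multiset.prod_add, Multiset.map_replicate,
          Multiset.prod_replicate]
        ring
    · refine ih u hu hc hu0 fun z hz1 hz2 => ?_
      rcases Finset.mem_insert.1 (hz z hz1 hz2) with h7 | h7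
      · exact absurd (h7 ▸ hz1) h
      · exact h7

/-- P2, open form -/
theorem fin_zeros {u : ℂ → ℂ} (hu : DifferentiableOn ℂ u (ball 0 1))
    (hu0 : ∃ z ∈ ball (0 : ℂ) 1, u z ≠ 0) {r : ℝ} (hr : r < 1) :
    ∃ (s : Multiset ℂ) (v : ℂ → ℂ), (∀ a ∈ s, ‖a‖ ≤ r) ∧ DifferentiableOn ℂ v (ball 0 1) ∧
      (∀ z : ℂ, ‖z‖ ≤ r → v z ≠ 0) ∧
      ∀ z ∈ ball (0 : ℂ) 1, u z = (s.map fun a => z - a).prod * v z := by
  obtain ⟨s, v, h1, h2, _, h4, h5⟩ := fin_zeros_on hu hu.continuousOn hu0 hr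
  exact ⟨s, v, h1, h2, h4, fun z hz => h5 z (Or.inr hz)⟩

/-- P2, closed form -/
theorem fin_zeros_closed {u : ℂ → ℂ} (hc : ContinuousOn u (closedBall 0 1))
    (hu : DifferentiableOn ℂ u (ball 0 1))
    (hu0 : ∃ z ∈ ball (0 : ℂ) 1, u z ≠ 0) {r : ℝ} (hr : r < 1) :
    ∃ (s : Multiset ℂ) (v : ℂ → ℂ), (∀ a ∈ s, ‖a‖ ≤ r) ∧ ContinuousOn v (closedBall 0 1) ∧
      DifferentiableOn ℂ v (ball 0 1) ∧ (∀ z : ℂ, ‖z‖ ≤ r → v z ≠ 0) ∧
      ∀ z ∈ closedBall (0 : ℂ) 1, u z = (s.map fun a => z - a).prod * v z := by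
  obtain ⟨s, v, h1, h2, h3, h4, h5⟩ := fin_zeros_on hu hc hu0 hr
  exact ⟨s, v, h1, h3, h2, h4, fun z hz => h5 z (Or.inl hz)⟩

end Pool.Agent.Helper23.KU
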